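import Pool.Agent.R828.K1max

/-!
# MP_b12a75_gt: a `K₁*`-embedded subspace which is not `K₁`-embedded
-/

namespace Pool.Agent.Results.MP_b12a75_gt.Irresolvable

open Set TopologicalSpace Pool.Agent.R828.KOne

/-- `FClosed`, `Add1`, `K1`, `BoundedFun`, `K1Embedded` and `K1StarEmbedded` are defined in
`Pool/Agent/R828/K1emb.lean`. -/
theorem result : ∃ (X : Type) (_ : TopologicalSpace X) (E : Set X),
    -- a compact Hausdorff space and a countable subspace
    CompactSpace X ∧ T2Space X ∧ E.Countable ∧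
    -- `E` is `K₁*`-embedded but not `K₁`-embedded in `X`
    K1StarEmbedded E ∧ ¬ K1Embedded E := by
  obtain ⟨ℬ, B₀, hA, hC, hS, hB₀, hne, hHI⟩ := exists_hi
  exact ⟨ℬ → Bool, inferInstance, emb ℬ '' B₀, inferInstance, inferInstance,
    B₀.to_countable.image _, k1Star hHI, not_k1 hA hC hS hB₀ hne⟩

end Pool.Agent.Results.MP_b12a75_gt.Irresolvable
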