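import Mathlib

/-!
# A `K₁*`-embedded subspace which is not `K₁`-embedded
-/

open Set Filter Topology

namespace Pool.Agent.Results.MP_b12a75_gt.StarNotK1

universe u

/-! ## Definitions -/

section Defs

variable {X : Type u} [TopologicalSpace X]

/-- Functionally closed sets. -/
def FClosed (A : Set X) : Prop :=
  ∃ f : X → ℝ, Continuous f ∧ (∀ x, 0 ≤ f x ∧ f x ≤ 1) ∧ A = f ⁻¹' {0}

/-- Sets of the first functionally additive class. -/
def FAdd (A : Set X) : Prop := ∃ Z : ℕ → Set X, (∀ n, FClosed (Z n)) ∧ A = ⋃ n, Z n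

/-- The first functional Lebesgue class. -/
def K1 (f : X → ℝ) : Prop := ∀ V : Set ℝ, IsOpen V → FAdd (f ⁻¹' V)

/-- `K₁`-embedded subspaces. -/
def K1Embedded (E : Set X) : Prop :=
  ∀ f : E → ℝ, K1 f → ∃ g : X → ℝ, K1 g ∧ ∀ x : E, g x = f x

/-- `K₁*`-embedded subspaces. -/
def K1StarEmbedded (E : Set X) : Prop :=
  ∀ f : E → ℝ, K1 f → (∃ C, ∀ x, |f x| ≤ C) →
    ∃ g : X → ℝ, K1 g ∧ (∃ C, ∀ x, |g x| ≤ C) ∧ ∀ x : E, g x = f x

end Defs

/-! ## Functionally closed sets and their unions -/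

section Basic

variable {X : Type u} [TopologicalSpace X]

theorem FClosed.isClosed {A : Set X} (h : FClosed A) : IsClosed A := by
  obtain ⟨f, hf, _, rfl⟩ := h
  exact isClosed_singleton.preimage hf

theorem FClosed.of_isClopen {A : Set X} (h : IsClopen A) : FClosed A := by
  classical
  refine ⟨fun x => if x ∈ A then 0 else 1, ?_, ?_, ?_⟩
  · refine continuous_const.if ?_ continuous_const
    intro a ha
    have : frontier {x | x ∈ A} = ∅ := h.frontier_eq
    rw [this] at ha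
    exact ha.elim
  · intro x
    dsimp only
    split_ifs <;> norm_num
  · ext x
    simp

theorem FClosed.inter {A B : Set X} (hA : FClosed A) (hB : FClosed B) : FClosed (A ∩ B) := by
  obtain ⟨f, hf, hf1, rfl⟩ := hA
  obtain ⟨g, hg, hg1, rfl⟩ := hB
  refine ⟨fun x => max (f x) (g x), hf.max hg, fun x => ⟨(hf1 x).1.trans (le_max_left _ _),
    max_le (hf1 x).2 (hg1 x).2⟩, ?_⟩
  ext x
  simp only [mem_inter_iff, mem_preimage, mem_singleton_iff]
  constructor
  · rintro ⟨h1, h2⟩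
    rw [h1, h2, max_self]
  · intro h
    exact ⟨le_antisymm (h ▸ le_max_left _ _) (hf1 x).1,
      le_antisymm (h ▸ le_max_right _ _) (hg1 x).1⟩

theorem FClosed.iInter {A : ℕ → Set X} (hA : ∀ n, FClosed (A n)) : FClosed (⋂ n, A n) := by
  choose f hf hf1 hfA using hA
  have hsum : Summable fun n : ℕ => ((1 : ℝ) / 2) ^ n := summable_geometric_two
  have hle : ∀ n x, (1 / 2 : ℝ) ^ n * (f n x / 2) ≤ (1 / 2) ^ n / 2 := by
    intro n x
    have h1 := (hf1 n x).2
    have h2 : (0 : ℝ) < (1 / 2) ^ n := by positivity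
    nlinarith
  have hnn : ∀ n x, 0 ≤ (1 / 2 : ℝ) ^ n * (f n x / 2) := by
    intro n x
    have h1 := (hf1 n x).1
    positivity
  have hs2 : Summable fun n : ℕ => ((1 : ℝ) / 2) ^ n / 2 := hsum.div_const 2
  have hs3 : ∀ x, Summable fun n : ℕ => (1 / 2 : ℝ) ^ n * (f n x / 2) := fun x =>
    Summable.of_nonneg_of_le (fun n => hnn n x) (fun n => hle n x) hs2
  refine ⟨fun x => ∑' n : ℕ, (1 / 2 : ℝ) ^ n * (f n x / 2), ?_, ?_, ?_⟩
  · refine continuous_tsum (fun n => ((hf n).div_const 2).const_mul _) hs2 ?_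
    intro n x
    rw [Real.norm_of_nonneg (hnn n x)]
    exact hle n x
  · intro x
    refine ⟨tsum_nonneg fun n => hnn n x, ?_⟩
    have h1 : ∑' n : ℕ, (1 / 2 : ℝ) ^ n * (f n x / 2) ≤ ∑' n : ℕ, ((1 : ℝ) / 2) ^ n / 2 :=
      (hs3 x).tsum_le_tsum (fun n => hle n x) hs2
    have h2 : ∑' n : ℕ, ((1 : ℝ) / 2) ^ n / 2 = 1 := by
      rw [tsum_div_const, tsum_geometric_two]
      norm_num
    exact h1.trans_eq h2
  · ext x
    simp only [mem_iInter, mem_preimage, mem_singleton_iff]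
    constructor
    · intro h
      have : ∀ n, (1 / 2 : ℝ) ^ n * (f n x / 2) = 0 := by
        intro n
        have h1 := h n
        rw [hfA n, mem_preimage, mem_singleton_iff] at h1
        rw [h1]
        ring
      exact (tsum_congr this).trans tsum_zero
    · intro h n
      have h1 : (1 / 2 : ℝ) ^ n * (f n x / 2) ≤ 0 := by
        rw [← h]
        exact (hs3 x).le_tsum n fun m _ => hnn m x
      rw [hfA n, mem_preimage, mem_singleton_iff]
      have h2 := (hf1 n x).1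
      have h3 : (0 : ℝ) < (1 / 2) ^ n := by positivity
      by_contra hne
      have h4 : 0 < f n x := lt_of_le_of_ne h2 (Ne.symm hne)
      have h5 : 0 < (1 / 2 : ℝ) ^ n * (f n x / 2) := by positivity
      exact absurd h1 (not_le.2 h5)

theorem FClosed.fAdd {A : Set X} (h : FClosed A) : FAdd A :=
  ⟨fun _ => A, fun _ => h, (iUnion_const A).symm⟩

theorem FClosed.compl_fAdd {A : Set X} (h : FClosed A) : FAdd Aᶜ := by
  obtain ⟨f, hf, hf1, rfl⟩ := h
  refine ⟨fun n => {x | (1 : ℝ) / (n + 1) ≤ f x}, fun n => ?_, ?_⟩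
  · refine ⟨fun x => max 0 ((1 : ℝ) / (n + 1) - f x), continuous_const.max
      (continuous_const.sub hf), fun x => ⟨le_max_left _ _, max_le zero_le_one ?_⟩, ?_⟩
    · have h1 := (hf1 x).1
      have h2 : (1 : ℝ) / (n + 1) ≤ 1 := by
        rw [div_le_one (by positivity)]
        have : (0 : ℝ) ≤ n := Nat.cast_nonneg n
        linarith
      linarith
    · ext x
      simp only [mem_ofPred_eq, mem_preimage, mem_singleton_iff, max_eq_left_iff]
      constructor
      · intro h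
        linarith
      · intro h
        linarith
  · ext x
    simp only [mem_compl_iff, mem_preimage, mem_singleton_iff, mem_iUnion, mem_ofPred_eq]
    constructor
    · intro h
      have h1 : 0 < f x := lt_of_le_of_ne (hf1 x).1 (Ne.symm h)
      obtain ⟨n, hn⟩ := exists_nat_one_div_lt h1
      exact ⟨n, hn.le⟩
    · rintro ⟨n, hn⟩ h
      rw [h] at hn
      have : (0 : ℝ) < 1 / (n + 1) := by positivity
      linarith

theorem FAdd.iUnion {A : ℕ → Set X} (hA : ∀ n, FAdd (A n)) : FAdd (⋃ n, A n) := by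
  choose Z hZ hAZ using hA
  refine ⟨fun k => Z k.unpair.1 k.unpair.2, fun k => hZ _ _, ?_⟩
  rw [iUnion_unpair Z]
  exact iUnion_congr hAZ

theorem FAdd.empty : FAdd (∅ : Set X) := (FClosed.of_isClopen isClopen_empty).fAdd

theorem FAdd.univ : FAdd (univ : Set X) := (FClosed.of_isClopen isClopen_univ).fAdd

theorem FAdd.iUnion' {ι : Type*} [Encodable ι] {A : ι → Set X} (hA : ∀ i, FAdd (A i)) :
    FAdd (⋃ i, A i) := by
  rw [← Encodable.iUnion_decode₂]
  exact FAdd.iUnion fun n => Encodable.iUnion_decode₂_cases FAdd.empty hA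

theorem FAdd.union {A B : Set X} (hA : FAdd A) (hB : FAdd B) : FAdd (A ∪ B) := by
  rw [union_eq_iUnion]
  exact FAdd.iUnion' fun b => by cases b <;> assumption

theorem FAdd.inter {A B : Set X} (hA : FAdd A) (hB : FAdd B) : FAdd (A ∩ B) := by
  obtain ⟨Z, hZ, rfl⟩ := hA
  obtain ⟨Y, hY, rfl⟩ := hB
  rw [iUnion_inter]
  refine FAdd.iUnion fun n => ?_
  rw [inter_iUnion]
  exact FAdd.iUnion fun m => ((hZ n).inter (hY m)).fAdd

/-- Ambiguous sets. -/
def Amb (H : Set X) : Prop := FAdd H ∧ FAdd Hᶜ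

theorem Amb.compl {H : Set X} (h : Amb H) : Amb Hᶜ := ⟨h.2, by rw [compl_compl]; exact h.1⟩

theorem Amb.inter {H K : Set X} (h : Amb H) (k : Amb K) : Amb (H ∩ K) :=
  ⟨h.1.inter k.1, by rw [compl_inter]; exact h.2.union k.2⟩

theorem Amb.union {H K : Set X} (h : Amb H) (k : Amb K) : Amb (H ∪ K) :=
  ⟨h.1.union k.1, by rw [compl_union]; exact h.2.inter k.2⟩

theorem Amb.univ : Amb (univ : Set X) := ⟨FAdd.univ, by rw [compl_univ]; exact FAdd.empty⟩

theorem Amb.empty : Amb (∅ : Set X) := ⟨FAdd.empty, by rw [compl_empty]; exact FAdd.univ⟩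

theorem K1.of_rays {g : X → ℝ} (h1 : ∀ c, FAdd {x | c < g x}) (h2 : ∀ c, FAdd {x | g x < c}) :
    K1 g := by
  classical
  intro V hV
  have hVe : V = ⋃ p : ℚ × ℚ, if Ioo (p.1 : ℝ) p.2 ⊆ V then Ioo (p.1 : ℝ) p.2 else ∅ := by
    ext y
    rw [mem_iUnion]
    constructor
    · intro hy
      obtain ⟨I, hI, hyI, hIV⟩ := Real.isTopologicalBasis_Ioo_rat.exists_subset_of_mem_open hy hV
      simp only [mem_iUnion, mem_singleton_iff] at hI
      obtain ⟨a, b, _, rfl⟩ := hI
      refine ⟨(a, b), ?_⟩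
      rw [if_pos hIV]
      exact hyI
    · rintro ⟨p, hp⟩
      by_cases h : Ioo (p.1 : ℝ) p.2 ⊆ V
      · rw [if_pos h] at hp
        exact h hp
      · rw [if_neg h] at hp
        exact hp.elim
  rw [hVe, preimage_iUnion]
  refine FAdd.iUnion' fun p => ?_
  by_cases h : Ioo (p.1 : ℝ) p.2 ⊆ V
  · rw [if_pos h]
    exact (h1 p.1).inter (h2 p.2)
  · rw [if_neg h, preimage_empty]
    exact FAdd.empty

end Basic

/-! ## Extension of subsets -/

section Ext

variable {X : Type u} [TopologicalSpace X] [CompactSpace X] [T2Space X]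
  [TotallyDisconnectedSpace X]

/-- `S` has been separated on the cozero set `O`. -/
def Good (E S O : Set X) : Prop := FClosed Oᶜ ∧ ∃ P Q : Set X, FAdd P ∧ FAdd Q ∧ P ∪ Q = O ∧
  Disjoint P Q ∧ ∀ x ∈ E, x ∈ O → (x ∈ P ↔ x ∈ S)

omit [CompactSpace X] [T2Space X] [TotallyDisconnectedSpace X] in
theorem Good.empty (E S : Set X) : Good E S ∅ := by
  refine ⟨by rw [compl_empty]; exact FClosed.of_isClopen isClopen_univ, ∅, ∅, FAdd.empty,
    FAdd.empty, union_self _, disjoint_bot_left, fun x _ h => h.elim⟩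

omit [CompactSpace X] [T2Space X] [TotallyDisconnectedSpace X] in
theorem Good.iUnion {E S : Set X} {O : ℕ → Set X} (h : ∀ n, Good E S (O n)) :
    Good E S (⋃ n, O n) := by
  classical
  choose hO P Q hP hQ hPQ hdis hmem using h
  have hPO : ∀ n, P n ⊆ O n := fun n => (hPQ n) ▸ subset_union_left
  have hQO : ∀ n, Q n ⊆ O n := fun n => (hPQ n) ▸ subset_union_right
  let T : ℕ → Set X := fun n => ⋂ m, if m < n then (O m)ᶜ else univ
  have hT : ∀ n x, x ∈ T n ↔ ∀ m < n, x ∉ O m := by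
    intro n x
    simp only [T, mem_iInter]
    refine forall_congr' fun m => ?_
    by_cases hm : m < n
    · simp [hm]
    · simp [hm]
  have hTc : ∀ n, FClosed (T n) := by
    intro n
    refine FClosed.iInter fun m => ?_
    by_cases hm : m < n
    · rw [if_pos hm]
      exact hO m
    · rw [if_neg hm]
      exact FClosed.of_isClopen isClopen_univ
  have hfirst : ∀ x, x ∈ ⋃ n, O n → ∃ n, x ∈ O n ∧ x ∈ T n := by
    intro x hx
    have hx' : ∃ n, x ∈ O n := mem_iUnion.1 hx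
    exact ⟨Nat.find hx', Nat.find_spec hx', (hT _ _).2 fun m hm => Nat.find_min hx' hm⟩
  refine ⟨?_, ⋃ n, P n ∩ T n, ⋃ n, Q n ∩ T n, FAdd.iUnion fun n => (hP n).inter (hTc n).fAdd,
    FAdd.iUnion fun n => (hQ n).inter (hTc n).fAdd, ?_, ?_, ?_⟩
  · rw [compl_iUnion]
    exact FClosed.iInter hO
  · apply Subset.antisymm
    · refine union_subset (iUnion_subset fun n => ?_) (iUnion_subset fun n => ?_)
      · exact inter_subset_left.trans ((hPO n).trans (subset_iUnion O n))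
      · exact inter_subset_left.trans ((hQO n).trans (subset_iUnion O n))
    · intro x hx
      obtain ⟨n, hn, hTn⟩ := hfirst x hx
      rw [← hPQ n] at hn
      rcases hn with hn | hn
      · exact Or.inl (mem_iUnion.2 ⟨n, hn, hTn⟩)
      · exact Or.inr (mem_iUnion.2 ⟨n, hn, hTn⟩)
  · rw [Set.disjoint_left]
    intro x hx hx'
    obtain ⟨n, hn, hTn⟩ := mem_iUnion.1 hx
    obtain ⟨m, hm, hTm⟩ := mem_iUnion.1 hx'
    rcases lt_trichotomy n m with h | h | h
    · exact (hT m x).1 hTm n h (hPO n hn)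
    · subst h
      exact Set.disjoint_left.1 (hdis n) hn hm
    · exact (hT n x).1 hTn m h (hQO m hm)
  · intro x hxE hx
    constructor
    · intro h
      obtain ⟨n, hn, _⟩ := mem_iUnion.1 h
      exact (hmem n x hxE (hPO n hn)).1 hn
    · intro hxS
      obtain ⟨n, hn, hTn⟩ := hfirst x hx
      exact mem_iUnion.2 ⟨n, (hmem n x hxE hn).2 hxS, hTn⟩

/-- Hereditary irresolvability of `E`. -/
def HI (E : Set X) : Prop :=
  ∀ F ⊆ E, F.Nonempty → ∀ S : Set X, ¬ (F ⊆ closure (F ∩ S) ∧ F ⊆ closure (F \ S))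

theorem amb_ext {E : Set X} (hc : E.Countable) (hHI : HI E) (S : Set X) :
    ∃ H : Set X, Amb H ∧ ∀ x ∈ E, (x ∈ H ↔ x ∈ S) := by
  classical
  rcases E.eq_empty_or_nonempty with hE | hE
  · exact ⟨∅, Amb.empty, by simp [hE]⟩
  obtain ⟨e, he⟩ := hc.exists_eq_range hE
  let O : ℕ → Set X := fun n => if h : ∃ U, Good E S U ∧ e n ∈ U then h.choose else ∅
  have hO : ∀ n, Good E S (O n) := by
    intro n
    by_cases h : ∃ U, Good E S U ∧ e n ∈ U
    · simp only [O, dif_pos h]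
      exact h.choose_spec.1
    · simp only [O, dif_neg h]
      exact Good.empty E S
  have hmax : ∀ x ∈ E, ∀ U, Good E S U → x ∈ U → x ∈ ⋃ n, O n := by
    intro x hx U hU hxU
    rw [he] at hx
    obtain ⟨n, rfl⟩ := hx
    have h : ∃ U, Good E S U ∧ e n ∈ U := ⟨U, hU, hxU⟩
    refine mem_iUnion.2 ⟨n, ?_⟩
    simp only [O, dif_pos h]
    exact h.choose_spec.2
  obtain ⟨hM, P, Q, hP, hQ, hPQ, hdis, hmem⟩ := Good.iUnion hO
  set M : Set X := ⋃ n, O n with hMdef
  have hPM : P ⊆ M := hPQ ▸ subset_union_left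
  have hQM : Q ⊆ M := hPQ ▸ subset_union_right
  have hEM : E ⊆ M := by
    by_contra hcon
    have hF : (E \ M).Nonempty := nonempty_of_not_subset hcon
    have h1 := hHI (E \ M) sdiff_subset hF S
    rw [not_and_or] at h1
    rcases h1 with h1 | h1
    · obtain ⟨x, hxF, hx⟩ := not_subset.1 h1
      obtain ⟨C, hC, hxC, hCd⟩ := compact_exists_isClopen_in_isOpen
        (isClosed_closure.isOpen_compl (X := X) (s := closure ((E \ M) ∩ S))) hx
      have hCd' : ∀ y ∈ C, y ∈ E → y ∉ M → y ∉ S := fun y hyC hyE hyM hyS =>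
        hCd hyC (subset_closure ⟨⟨hyE, hyM⟩, hyS⟩)
      apply hxF.2
      refine hmax x hxF.1 (M ∪ C) ⟨?_, P, Q ∪ (C ∩ Mᶜ), hP, hQ.union
        ((FClosed.of_isClopen hC).inter hM).fAdd, ?_, ?_, ?_⟩ (Or.inr hxC)
      · rw [compl_union]
        exact hM.inter (FClosed.of_isClopen hC.compl)
      · rw [← union_assoc, hPQ]
        ext y
        by_cases hy : y ∈ M <;> simp [hy]
      · rw [disjoint_union_right]
        refine ⟨hdis, Set.disjoint_left.2 fun y hy hy' => hy'.2 (hPM hy)⟩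
      · intro y hyE hy
        by_cases hyM : y ∈ M
        · exact hmem y hyE hyM
        · have hyC : y ∈ C := hy.resolve_left hyM
          exact ⟨fun h => absurd (hPM h) hyM, fun h => absurd h (hCd' y hyC hyE hyM)⟩
    · obtain ⟨x, hxF, hx⟩ := not_subset.1 h1
      obtain ⟨C, hC, hxC, hCd⟩ := compact_exists_isClopen_in_isOpen
        (isClosed_closure.isOpen_compl (X := X) (s := closure ((E \ M) \ S))) hx
      have hCd' : ∀ y ∈ C, y ∈ E → y ∉ M → y ∈ S := fun y hyC hyE hyM => by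
        by_contra hyS
        exact hCd hyC (subset_closure ⟨⟨hyE, hyM⟩, hyS⟩)
      apply hxF.2
      refine hmax x hxF.1 (M ∪ C) ⟨?_, P ∪ (C ∩ Mᶜ), Q, hP.union
        ((FClosed.of_isClopen hC).inter hM).fAdd, hQ, ?_, ?_, ?_⟩ (Or.inr hxC)
      · rw [compl_union]
        exact hM.inter (FClosed.of_isClopen hC.compl)
      · rw [union_right_comm, hPQ]
        ext y
        by_cases hy : y ∈ M <;> simp [hy]
      · rw [disjoint_union_left]
        refine ⟨hdis, Set.disjoint_left.2 fun y hy hy' => hy.2 (hQM hy')⟩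
      · intro y hyE hy
        by_cases hyM : y ∈ M
        · constructor
          · rintro (h | h)
            · exact (hmem y hyE hyM).1 h
            · exact absurd hyM h.2
          · intro h
            exact Or.inl ((hmem y hyE hyM).2 h)
        · have hyC : y ∈ C := hy.resolve_left hyM
          exact ⟨fun _ => hCd' y hyC hyE hyM, fun _ => Or.inr ⟨hyC, hyM⟩⟩
  refine ⟨P, ⟨hP, ?_⟩, fun x hx => hmem x hx (hEM hx)⟩
  have : Pᶜ = Q ∪ Mᶜ := by
    ext y
    constructor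
    · intro hy
      by_cases hyM : y ∈ M
      · rw [← hPQ] at hyM
        exact Or.inl (hyM.resolve_left hy)
      · exact Or.inr hyM
    · rintro (hy | hy) hyP
      · exact Set.disjoint_left.1 hdis hyP hy
      · exact hy (hPM hyP)
  rw [this]
  exact hQ.union hM.fAdd

end Ext

/-! ## Bounded functions extend -/

section Star

variable {X : Type u} [TopologicalSpace X]

/-- Partial sums. -/
noncomputable def gN (H : ℕ → Set X) (N : ℕ) (x : X) : ℝ :=
  open Classical in ∑ n ∈ Finset.range N, if x ∈ H n then (1 / 2 : ℝ) ^ n / 2 else 0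

omit [TopologicalSpace X] in
theorem gN_succ (H : ℕ → Set X) (N : ℕ) (x : X) :
    gN H (N + 1) x = gN H N x + (open Classical in if x ∈ H N then (1 / 2 : ℝ) ^ N / 2 else 0) := by
  unfold gN
  rw [Finset.sum_range_succ]

theorem amb_gN {H : ℕ → Set X} (hH : ∀ n, Amb (H n)) (N : ℕ) :
    ∀ T : Set ℝ, Amb {x | gN H N x ∈ T} := by
  classical
  induction N with
  | zero =>
    intro T
    by_cases h : (0 : ℝ) ∈ T
    · have : {x : X | gN H 0 x ∈ T} = univ := by
        ext x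
        simp [gN, h]
      rw [this]
      exact Amb.univ
    · have : {x : X | gN H 0 x ∈ T} = ∅ := by
        ext x
        simp [gN, h]
      rw [this]
      exact Amb.empty
  | succ N ih =>
    intro T
    have : {x : X | gN H (N + 1) x ∈ T} =
        (H N ∩ {x | gN H N x ∈ {y | y + (1 / 2 : ℝ) ^ N / 2 ∈ T}}) ∪
          ((H N)ᶜ ∩ {x | gN H N x ∈ T}) := by
      ext x
      rw [mem_ofPred_eq, gN_succ]
      by_cases hx : x ∈ H N
      · simp [hx]
      · simp [hx]
    rw [this]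
    exact ((hH N).inter (ih _)).union ((hH N).compl.inter (ih _))

omit [TopologicalSpace X] in
theorem gN_mono (H : ℕ → Set X) (x : X) : Monotone fun N => gN H N x := by
  refine monotone_nat_of_le_succ fun N => ?_
  rw [gN_succ]
  split_ifs
  · have : (0 : ℝ) < (1 / 2) ^ N := by positivity
    linarith
  · linarith

omit [TopologicalSpace X] in
theorem gN_anti (H : ℕ → Set X) (x : X) : Antitone fun N => gN H N x + (1 / 2 : ℝ) ^ N := by
  refine antitone_nat_of_succ_le fun N => ?_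
  have h1 : (0 : ℝ) < (1 / 2) ^ N := by positivity
  have h2 : (1 / 2 : ℝ) ^ (N + 1) = (1 / 2) ^ N / 2 := by rw [pow_succ]; ring
  rw [gN_succ, h2]
  split_ifs <;> linarith

/-- The limit. -/
noncomputable def gL (H : ℕ → Set X) (x : X) : ℝ := ⨆ N, gN H N x

omit [TopologicalSpace X] in
theorem gN_bdd (H : ℕ → Set X) (x : X) : BddAbove (range fun N => gN H N x) := by
  refine ⟨1, ?_⟩
  rintro _ ⟨N, rfl⟩
  have h1 := gN_anti H x (Nat.zero_le N)
  have h2 : (0 : ℝ) < (1 / 2) ^ N := by positivity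
  have h3 : gN H 0 x = 0 := by simp [gN]
  dsimp only at h1 ⊢
  rw [h3, pow_zero] at h1
  linarith

theorem gN_le_gL (H : ℕ → Set X) (N : ℕ) (x : X) : gN H N x ≤ gL H x :=
  le_ciSup (gN_bdd H x) N

omit [TopologicalSpace X] in
theorem gL_le (H : ℕ → Set X) (N : ℕ) (x : X) : gL H x ≤ gN H N x + (1 / 2 : ℝ) ^ N := by
  refine ciSup_le fun M => ?_
  rcases le_total M N with h | h
  · have h1 := gN_mono H x h
    have h2 : (0 : ℝ) < (1 / 2) ^ N := by positivity
    dsimp only at h1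
    linarith
  · have h1 := gN_anti H x h
    have h2 : (0 : ℝ) < (1 / 2) ^ M := by positivity
    dsimp only at h1
    linarith

theorem K1_gL {H : ℕ → Set X} (hH : ∀ n, Amb (H n)) : K1 (gL H) := by
  apply K1.of_rays
  · intro c
    have : {x | c < gL H x} = ⋃ N, {x | gN H N x ∈ Ioi c} := by
      ext x
      rw [mem_ofPred_eq, mem_iUnion]
      constructor
      · intro h
        obtain ⟨N, hN⟩ := exists_lt_of_lt_ciSup h
        exact ⟨N, hN⟩
      · rintro ⟨N, hN⟩
        exact lt_of_lt_of_le hN (gN_le_gL H N x)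
    rw [this]
    exact FAdd.iUnion fun N => (amb_gN hH N _).1
  · intro c
    have : {x | gL H x < c} = ⋃ N : ℕ, {x | gN H N x ∈ Iio (c - (1 / 2 : ℝ) ^ N)} := by
      ext x
      rw [mem_ofPred_eq, mem_iUnion]
      constructor
      · intro h
        obtain ⟨N, hN⟩ := exists_pow_lt_of_lt_one (sub_pos.2 h) (by norm_num : (1 / 2 : ℝ) < 1)
        refine ⟨N, ?_⟩
        have := gN_le_gL H N x
        change gN H N x < c - (1 / 2 : ℝ) ^ N
        linarith
      · rintro ⟨N, hN⟩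
        have h1 := gL_le H N x
        have h2 : gN H N x < c - (1 / 2 : ℝ) ^ N := hN
        linarith
    rw [this]
    exact FAdd.iUnion fun N => (amb_gN hH N _).1

/-- Remainders of the binary expansion. -/
noncomputable def rem (t : ℝ) : ℕ → ℝ
  | 0 => t
  | n + 1 => open Classical in if 1 / 2 ≤ rem t n then 2 * rem t n - 1 else 2 * rem t n

theorem rem_mem {t : ℝ} (h0 : 0 ≤ t) (h1 : t ≤ 1) (n : ℕ) : 0 ≤ rem t n ∧ rem t n ≤ 1 := by
  induction n with
  | zero => exact ⟨h0, h1⟩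
  | succ n ih =>
    rw [rem]
    split_ifs with h
    · constructor <;> linarith [ih.1, ih.2]
    · push Not at h
      constructor <;> linarith [ih.1, ih.2]

theorem gL_digits {H : ℕ → Set X} {x : X} {t : ℝ} (h0 : 0 ≤ t) (h1 : t ≤ 1)
    (hH : ∀ n, x ∈ H n ↔ 1 / 2 ≤ rem t n) : gL H x = t := by
  have key : ∀ N, t = gN H N x + (1 / 2 : ℝ) ^ N * rem t N := by
    intro N
    induction N with
    | zero => simp [gN, rem]
    | succ N ih =>
      rw [gN_succ, rem]
      by_cases h : 1 / 2 ≤ rem t N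
      · rw [if_pos h, if_pos ((hH N).2 h), pow_succ]
        linarith
      · rw [if_neg h, if_neg (fun hx => h ((hH N).1 hx)), pow_succ]
        linarith
  have h2 : ∀ N : ℕ, |gL H x - t| ≤ (1 / 2 : ℝ) ^ N := by
    intro N
    have h3 := gN_le_gL H N x
    have h4 := gL_le H N x
    have h5 := rem_mem h0 h1 N
    have h6 := key N
    have h7 : (0 : ℝ) < (1 / 2) ^ N := by positivity
    rw [abs_le]
    constructor <;> nlinarith [h5.1, h5.2]
  by_contra hne
  have h3 : 0 < |gL H x - t| := abs_pos.2 (sub_ne_zero.2 hne)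
  obtain ⟨N, hN⟩ := exists_pow_lt_of_lt_one h3 (by norm_num : (1 / 2 : ℝ) < 1)
  exact absurd (h2 N) (not_le.2 hN)

theorem star_embedded [CompactSpace X] [T2Space X] [TotallyDisconnectedSpace X] {E : Set X}
    (hc : E.Countable) (hHI : HI E) : K1StarEmbedded E := by
  classical
  rintro f _ ⟨C, hC⟩
  let D : ℝ := |C| + 1
  have hD : 0 < D := by positivity
  have hfD : ∀ x, |f x| ≤ D := fun x => (hC x).trans ((le_abs_self C).trans (by simp [D]))
  let u : E → ℝ := fun x => (f x + D) / (2 * D)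
  have hu0 : ∀ x, 0 ≤ u x := by
    intro x
    have := (abs_le.1 (hfD x)).1
    apply div_nonneg <;> linarith
  have hu1 : ∀ x, u x ≤ 1 := by
    intro x
    have := (abs_le.1 (hfD x)).2
    rw [div_le_one (by linarith)]
    linarith
  have hfu : ∀ x, f x = 2 * D * u x - D := by
    intro x
    simp only [u]
    field_simp
    ring
  have hS : ∀ n : ℕ, ∃ H : Set X, Amb H ∧ ∀ x (hx : x ∈ E), (x ∈ H ↔ 1 / 2 ≤ rem (u ⟨x, hx⟩) n) := by
    intro n
    obtain ⟨H, hH, hHE⟩ := amb_ext hc hHI {x | ∃ hx : x ∈ E, 1 / 2 ≤ rem (u ⟨x, hx⟩) n}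
    refine ⟨H, hH, fun x hx => (hHE x hx).trans ?_⟩
    exact ⟨fun h => h.2, fun h => ⟨hx, h⟩⟩
  choose H hH hHE using hS
  have hgE : ∀ x : E, gL H x = u x := fun x =>
    gL_digits (hu0 x) (hu1 x) fun n => hHE n x x.2
  have hg01 : ∀ x, 0 ≤ gL H x ∧ gL H x ≤ 1 := by
    intro x
    have h1 := gN_le_gL H 0 x
    have h2 := gL_le H 0 x
    have h3 : gN H 0 x = 0 := by simp [gN]
    rw [h3] at h1 h2
    norm_num at h2
    exact ⟨h1, h2⟩
  refine ⟨fun x => 2 * D * gL H x - D, ?_, ⟨D, ?_⟩, ?_⟩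
  · intro V hV
    have hV' : IsOpen ((fun y : ℝ => 2 * D * y - D) ⁻¹' V) := hV.preimage (by fun_prop)
    exact K1_gL hH _ hV'
  · intro x
    have := hg01 x
    rw [abs_le]
    constructor <;> nlinarith [this.1, this.2]
  · intro x
    change 2 * D * gL H x - D = f x
    rw [hgE, hfu]

end Star

/-! ## Unbounded functions need not extend -/

section NotK1

variable {X : Type u} [TopologicalSpace X] [CompactSpace X] [T2Space X]
  [TotallyDisconnectedSpace X]

theorem fClosed_point {E : Set X} (hc : E.Countable) (x : E) : FClosed ({x} : Set E) := by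
  classical
  obtain ⟨e, he⟩ := hc.exists_eq_range ⟨x, x.2⟩
  have hC : ∀ y : X, ∃ C : Set X, IsClopen C ∧ (x : X) ∈ C ∧ (y ≠ x → y ∉ C) := by
    intro y
    by_cases hy : y = x
    · exact ⟨univ, isClopen_univ, mem_univ _, fun h => absurd hy h⟩
    · obtain ⟨C, hC, hxC, hCy⟩ := compact_exists_isClopen_in_isOpen
        (isOpen_compl_singleton (x := y)) (show (x : X) ∈ ({y} : Set X)ᶜ from fun h => hy h.symm)
      exact ⟨C, hC, hxC, fun _ hyC => hCy hyC rfl⟩
  choose C hCc hxC hCy using hC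
  have : ({x} : Set E) = ⋂ n, (Subtype.val ⁻¹' C (e n) : Set E) := by
    ext y
    simp only [mem_singleton_iff, mem_iInter, mem_preimage]
    constructor
    · rintro rfl n
      exact hxC _
    · intro h
      by_contra hne
      have hy : (y : X) ∈ range e := he ▸ y.2
      obtain ⟨n, hn⟩ := hy
      refine hCy (e n) (fun h' => hne (Subtype.ext ?_)) ?_
      · rw [← h', hn]
      · have := h n
        rwa [hn] at this ⊢
  rw [this]
  exact FClosed.iInter fun n => FClosed.of_isClopen ((hCc _).preimage continuous_subtype_val)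

theorem not_embedded [Nonempty X] {E : Set X} (hc : E.Countable)
    (hinf : ∀ W : Set X, IsOpen W → W.Nonempty → (W ∩ E).Infinite) : ¬ K1Embedded E := by
  classical
  intro hK
  have := hc.to_subtype
  obtain ⟨e, he⟩ := exists_injective_nat E
  let f : E → ℝ := fun x => (e x : ℝ)
  have hall : ∀ A : Set E, FAdd A := by
    intro A
    have : Encodable E := hc.toEncodable
    have hA : A = ⋃ x : E, if x ∈ A then {x} else ∅ := by
      ext y
      rw [mem_iUnion]
      constructor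
      · intro hy
        refine ⟨y, ?_⟩
        rw [if_pos hy]
        rfl
      · rintro ⟨x, hx⟩
        by_cases h : x ∈ A
        · rw [if_pos h] at hx
          rwa [show y = x from hx]
        · rw [if_neg h] at hx
          exact hx.elim
    rw [hA]
    refine FAdd.iUnion' fun x => ?_
    by_cases h : x ∈ A
    · rw [if_pos h]
      exact (fClosed_point hc x).fAdd
    · rw [if_neg h]
      exact FAdd.empty
  obtain ⟨g, hg, hgf⟩ := hK f fun V _ => hall _
  have hI : ∀ k : ℤ, FAdd (g ⁻¹' Ioo ((k : ℝ) / 2) ((k : ℝ) / 2 + 1)) := fun k => hg _ isOpen_Ioo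
  choose Z hZ hZe using hI
  have hcov : ⋃ p : ℤ × ℕ, Z p.1 p.2 = univ := by
    rw [eq_univ_iff_forall]
    intro x
    let k : ℤ := ⌈2 * g x⌉ - 1
    have hk : g x ∈ Ioo ((k : ℝ) / 2) ((k : ℝ) / 2 + 1) := by
      have h1 := Int.le_ceil (2 * g x)
      have h2 := Int.ceil_lt_add_one (2 * g x)
      have h3 : (k : ℝ) = (⌈2 * g x⌉ : ℝ) - 1 := by simp [k]
      rw [h3]
      constructor <;> linarith
    have hx : x ∈ g ⁻¹' Ioo ((k : ℝ) / 2) ((k : ℝ) / 2 + 1) := hk
    rw [hZe] at hx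
    obtain ⟨m, hm⟩ := mem_iUnion.1 hx
    exact mem_iUnion.2 ⟨(k, m), hm⟩
  obtain ⟨⟨k, m⟩, hW⟩ := nonempty_interior_of_iUnion_of_closed
    (fun p : ℤ × ℕ => (hZ p.1 p.2).isClosed) hcov
  have h1 := hinf _ isOpen_interior hW
  obtain ⟨x, hx, y, hy, hxy⟩ := h1.nontrivial
  have hval : ∀ z (hz : z ∈ E), z ∈ interior (Z k m) →
      (e ⟨z, hz⟩ : ℝ) ∈ Ioo ((k : ℝ) / 2) ((k : ℝ) / 2 + 1) := by
    intro z hz hzW
    have h2 : z ∈ g ⁻¹' Ioo ((k : ℝ) / 2) ((k : ℝ) / 2 + 1) := by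
      rw [hZe]
      exact mem_iUnion.2 ⟨m, interior_subset hzW⟩
    have h3 : g z = e ⟨z, hz⟩ := hgf ⟨z, hz⟩
    rw [← h3]
    exact h2
  have h2 := hval x hx.2 hx.1
  have h3 := hval y hy.2 hy.1
  have h4 : e ⟨x, hx.2⟩ = e ⟨y, hy.2⟩ := by
    by_contra hne
    have h5 : ((e ⟨x, hx.2⟩ : ℕ) : ℝ) - e ⟨y, hy.2⟩ < 1 := by linarith [h2.2, h3.1]
    have h6 : ((e ⟨y, hy.2⟩ : ℕ) : ℝ) - e ⟨x, hx.2⟩ < 1 := by linarith [h3.2, h2.1]
    rcases lt_or_gt_of_ne hne with h | h
    · have h7 : (e ⟨x, hx.2⟩ : ℝ) + 1 ≤ e ⟨y, hy.2⟩ := by exact_mod_cast h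
      linarith
    · have h7 : (e ⟨y, hy.2⟩ : ℝ) + 1 ≤ e ⟨x, hx.2⟩ := by exact_mod_cast h
      linarith
  exact hxy (congrArg Subtype.val (he h4))

end NotK1

/-! ## A maximal Boolean algebra -/

section Comb

/-- Closure with respect to a family of sets. -/
def clB (B : Set (Set ℕ)) (A : Set ℕ) : Set ℕ := {n | ∀ b ∈ B, n ∈ b → (b ∩ A).Nonempty}

theorem subset_clB (B : Set (Set ℕ)) (A : Set ℕ) : A ⊆ clB B A := fun n hn _ _ hnb => ⟨n, hnb, hn⟩

theorem clB_mono (B : Set (Set ℕ)) {A A' : Set ℕ} (h : A ⊆ A') : clB B A ⊆ clB B A' :=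
  fun _ hn b hb hnb => (hn b hb hnb).mono (inter_subset_inter_right b h)

theorem clB_of_subset {B : Set (Set ℕ)} {A A' : Set ℕ} (h : A ⊆ clB B A') :
    clB B A ⊆ clB B A' := by
  intro n hn b hb hnb
  obtain ⟨m, hmb, hm⟩ := hn b hb hnb
  exact h hm b hb hmb

/-- Admissible families. -/
structure Adm (B : Set (Set ℕ)) : Prop where
  compl : ∀ b ∈ B, bᶜ ∈ B
  inter : ∀ b ∈ B, ∀ c ∈ B, b ∩ c ∈ B
  inf : ∀ b ∈ B, b.Nonempty → b.Infinite
  sep : ∀ m n : ℕ, m ≠ n → ∃ b ∈ B, m ∈ b ∧ n ∉ b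
  univ : univ ∈ B

/-- Periodic sets. -/
def Per : Set (Set ℕ) := {b | ∃ m : ℕ, 0 < m ∧ ∀ n, n + m ∈ b ↔ n ∈ b}

theorem per_mul {b : Set ℕ} {m : ℕ} (h : ∀ n, n + m ∈ b ↔ n ∈ b) (k n : ℕ) :
    n + k * m ∈ b ↔ n ∈ b := by
  induction k with
  | zero => simp
  | succ k ih => rw [Nat.succ_mul, ← add_assoc, h, ih]

theorem adm_per : Adm Per where
  compl := by
    rintro b ⟨m, hm, h⟩
    exact ⟨m, hm, fun n => not_congr (h n)⟩
  inter := by
    rintro b ⟨m, hm, h⟩ c ⟨k, hk, h'⟩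
    refine ⟨k * m, Nat.mul_pos hk hm, fun n => and_congr (per_mul h k n) ?_⟩
    rw [mul_comm]
    exact per_mul h' m n
  inf := by
    rintro b ⟨m, hm, h⟩ ⟨n, hn⟩
    refine Set.infinite_of_injective_forall_mem (f := fun k : ℕ => n + k * m) ?_ ?_
    · intro k l hkl
      have : k * m = l * m := by simpa using hkl
      exact Nat.eq_of_mul_eq_mul_right hm this
    · intro k
      exact (per_mul h k n).2 hn
  sep := by
    intro m n hmn
    refine ⟨{j | j % (m + n + 1) = m}, ⟨m + n + 1, by omega, fun j => ?_⟩, ?_, ?_⟩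
    · rw [mem_ofPred_eq, mem_ofPred_eq, Nat.add_mod_right]
    · rw [mem_ofPred_eq, Nat.mod_eq_of_lt (by omega)]
    · rw [mem_ofPred_eq, Nat.mod_eq_of_lt (by omega)]
      exact fun h => hmn h.symm
  univ := ⟨1, one_pos, fun n => by simp⟩

theorem exists_max : ∃ B, Maximal Adm B := by
  obtain ⟨B, _, hB⟩ := zorn_subset_nonempty {B | Adm B} (by
    intro c hc hch hne
    obtain ⟨B₀, hB₀⟩ := hne
    refine ⟨⋃₀ c, ?_, fun s hs => subset_sUnion_of_mem hs⟩
    refine ⟨?_, ?_, ?_, ?_, ?_⟩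
    · rintro b ⟨s, hs, hb⟩
      exact ⟨s, hs, (hc hs).compl b hb⟩
    · rintro b ⟨s, hs, hb⟩ b' ⟨s', hs', hb'⟩
      rcases hch.total hs hs' with h | h
      · exact ⟨s', hs', (hc hs').inter b (h hb) b' hb'⟩
      · exact ⟨s, hs, (hc hs).inter b hb b' (h hb')⟩
    · rintro b ⟨s, hs, hb⟩
      exact (hc hs).inf b hb
    · intro m n hmn
      obtain ⟨b, hb, h⟩ := (hc hB₀).sep m n hmn
      exact ⟨b, ⟨B₀, hB₀, hb⟩, h⟩
    · exact ⟨B₀, hB₀, (hc hB₀).univ⟩) Per adm_per
  exact ⟨B, hB⟩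

theorem Adm.union {B : Set (Set ℕ)} (h : Adm B) {b c : Set ℕ} (hb : b ∈ B) (hc : c ∈ B) :
    b ∪ c ∈ B := by
  have := h.compl _ (h.inter _ (h.compl b hb) _ (h.compl c hc))
  rwa [compl_inter, compl_compl, compl_compl] at this

/-- A dense set meets each non-empty member in an infinite set. -/
theorem Adm.dense_inf {B : Set (Set ℕ)} (h : Adm B) {D b : Set ℕ} (hD : clB B D = Set.univ)
    (hb : b ∈ B) (hne : b.Nonempty) : (b ∩ D).Infinite := by
  intro hfin
  -- remove the finitely many points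
  have key : ∀ s : Finset ℕ, ∀ n ∈ b, n ∉ s → ∃ c ∈ B, n ∈ c ∧ c ⊆ b ∧ Disjoint c (s : Set ℕ) := by
    intro s
    induction s using Finset.induction_on with
    | empty =>
      intro n hn _
      exact ⟨b, hb, hn, Subset.rfl, by simp⟩
    | insert a s ha ih =>
      intro n hn hns
      rw [Finset.mem_insert, not_or] at hns
      obtain ⟨c, hc, hnc, hcb, hcs⟩ := ih n hn hns.2
      obtain ⟨c', hc', hnc', hac'⟩ := h.sep n a hns.1
      refine ⟨c ∩ c', h.inter _ hc _ hc', ⟨hnc, hnc'⟩, inter_subset_left.trans hcb, ?_⟩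
      rw [Finset.coe_insert, disjoint_insert_right]
      exact ⟨fun hx => hac' hx.2, hcs.mono_left inter_subset_left⟩
  obtain ⟨n, hn, hns⟩ := (h.inf b hb hne).exists_notMem_finset hfin.toFinset
  obtain ⟨c, hc, hnc, hcb, hcs⟩ := key hfin.toFinset n hn hns
  have hn' : n ∈ clB B D := by rw [hD]; trivial
  obtain ⟨m, hmc, hmD⟩ := hn' c hc hnc
  refine Set.disjoint_left.1 hcs hmc ?_
  rw [Finset.mem_coe, Set.Finite.mem_toFinset]
  exact ⟨hcb hmc, hmD⟩

theorem irresolvable {B : Set (Set ℕ)} (hB : Maximal Adm B) (D : Set ℕ) :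
    ¬ (clB B D = univ ∧ clB B Dᶜ = univ) := by
  rintro ⟨h1, h2⟩
  have h := hB.prop
  let B' : Set (Set ℕ) := {c | ∃ b ∈ B, ∃ b' ∈ B, c = (b ∩ D) ∪ (b' ∩ Dᶜ)}
  have hBB' : B ⊆ B' := fun b hb => ⟨b, hb, b, hb, by
    rw [← inter_union_distrib_left, union_compl_self, inter_univ]⟩
  have hadm : Adm B' := by
    refine ⟨?_, ?_, ?_, ?_, hBB' h.univ⟩
    · rintro _ ⟨b, hb, b', hb', rfl⟩
      refine ⟨bᶜ, h.compl b hb, b'ᶜ, h.compl b' hb', ?_⟩
      ext x
      by_cases hx : x ∈ D <;> simp [hx]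
    · rintro _ ⟨b, hb, b', hb', rfl⟩ _ ⟨c, hc, c', hc', rfl⟩
      refine ⟨b ∩ c, h.inter b hb c hc, b' ∩ c', h.inter b' hb' c' hc', ?_⟩
      ext x
      by_cases hx : x ∈ D <;> simp [hx]
    · rintro _ ⟨b, hb, b', hb', rfl⟩ ⟨x, hx⟩
      rcases hx with hx | hx
      · exact (h.dense_inf h1 hb ⟨x, hx.1⟩).mono subset_union_left
      · exact (h.dense_inf h2 hb' ⟨x, hx.1⟩).mono subset_union_right
    · intro m n hmn
      obtain ⟨b, hb, hbmn⟩ := h.sep m n hmn
      exact ⟨b, hBB' hb, hbmn⟩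
  have hDB : D ∈ B := hB.2 hadm hBB' ⟨univ, h.univ, ∅, by
    have := h.compl _ h.univ
    rwa [compl_univ] at this, by simp⟩
  rcases D.eq_empty_or_nonempty with hD | ⟨n, hn⟩
  · have h3 : (0 : ℕ) ∈ clB B D := by rw [h1]; trivial
    obtain ⟨m, _, hm⟩ := h3 univ h.univ trivial
    rw [hD] at hm
    exact hm
  · have h3 : n ∈ clB B Dᶜ := by rw [h2]; trivial
    obtain ⟨m, hm, hm'⟩ := h3 D hDB hn
    exact hm' hm

/-- There is a non-empty open hereditarily irresolvable subspace. -/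
theorem exists_hi {B : Set (Set ℕ)} (hB : Maximal Adm B) : ∃ U : Set ℕ, U.Nonempty ∧
    (∀ n ∈ U, ∃ b ∈ B, n ∈ b ∧ b ⊆ U) ∧
    ∀ F ⊆ U, F.Nonempty → ∀ S : Set ℕ, ¬ (F ⊆ clB B (F ∩ S) ∧ F ⊆ clB B (F \ S)) := by
  obtain ⟨⟨A, A'⟩, hmax⟩ := zorn_le₀ {p : Set ℕ × Set ℕ | Disjoint p.1 p.2 ∧
      p.1 ∪ p.2 ⊆ clB B p.1 ∧ p.1 ∪ p.2 ⊆ clB B p.2} (by
    intro c hc hch
    refine ⟨(⋃ p ∈ c, p.1, ⋃ p ∈ c, p.2), ⟨?_, ?_, ?_⟩, ?_⟩
    · rw [Set.disjoint_left]
      intro x hx hx'
      simp only [mem_iUnion] at hx hx'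
      obtain ⟨p, hp, hxp⟩ := hx
      obtain ⟨q, hq, hxq⟩ := hx'
      rcases hch.total hp hq with h | h
      · exact Set.disjoint_left.1 (hc hq).1 (h.1 hxp) hxq
      · exact Set.disjoint_left.1 (hc hp).1 hxp (h.2 hxq)
    · refine union_subset (iUnion₂_subset fun p hp => ?_) (iUnion₂_subset fun p hp => ?_)
      · exact (subset_union_left.trans (hc hp).2.1).trans
          (clB_mono B (subset_biUnion_of_mem (u := fun p : Set ℕ × Set ℕ => p.1) hp))
      · exact (subset_union_right.trans (hc hp).2.1).trans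
          (clB_mono B (subset_biUnion_of_mem (u := fun p : Set ℕ × Set ℕ => p.1) hp))
    · refine union_subset (iUnion₂_subset fun p hp => ?_) (iUnion₂_subset fun p hp => ?_)
      · exact (subset_union_left.trans (hc hp).2.2).trans
          (clB_mono B (subset_biUnion_of_mem (u := fun p : Set ℕ × Set ℕ => p.2) hp))
      · exact (subset_union_right.trans (hc hp).2.2).trans
          (clB_mono B (subset_biUnion_of_mem (u := fun p : Set ℕ × Set ℕ => p.2) hp))
    · intro p hp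
      exact ⟨subset_biUnion_of_mem (u := fun p : Set ℕ × Set ℕ => p.1) hp,
        subset_biUnion_of_mem (u := fun p : Set ℕ × Set ℕ => p.2) hp⟩)
  obtain ⟨hdis, h1, h2⟩ := hmax.prop
  dsimp only at hdis h1 h2
  refine ⟨(clB B (A ∪ A'))ᶜ, ?_, ?_, ?_⟩
  · rw [nonempty_compl]
    intro h
    refine irresolvable hB A ⟨?_, ?_⟩
    · exact univ_subset_iff.1 (h ▸ clB_of_subset h1)
    · refine univ_subset_iff.1 ?_
      have h3 : A' ⊆ Aᶜ := fun x hx hx' => Set.disjoint_left.1 hdis hx' hx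
      exact (h ▸ clB_of_subset h2 : univ ⊆ clB B A').trans (clB_mono B h3)
  · intro n hn
    have hn' : ¬ ∀ b ∈ B, n ∈ b → (b ∩ (A ∪ A')).Nonempty := hn
    push Not at hn'
    obtain ⟨b, hb, hnb, hbe⟩ := hn'
    refine ⟨b, hb, hnb, fun m hm hm' => ?_⟩
    have := hm' b hb hm
    rw [hbe] at this
    exact this.ne_empty rfl
  · rintro F hFU ⟨x, hx⟩ S ⟨hF1, hF2⟩
    have hFA : ∀ y ∈ F, y ∉ A ∪ A' := fun y hy hy' => hFU hy (subset_clB B _ hy')
    have hnew : (A ∪ (F ∩ S), A' ∪ (F \ S)) ∈ {p : Set ℕ × Set ℕ | Disjoint p.1 p.2 ∧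
        p.1 ∪ p.2 ⊆ clB B p.1 ∧ p.1 ∪ p.2 ⊆ clB B p.2} := by
      refine ⟨?_, ?_, ?_⟩
      · rw [Set.disjoint_left]
        rintro y (hy | hy) (hy' | hy')
        · exact Set.disjoint_left.1 hdis hy hy'
        · exact hFA y hy'.1 (Or.inl hy)
        · exact hFA y hy.1 (Or.inr hy')
        · exact hy'.2 hy.2
      · rintro y ((hy | hy) | (hy | hy))
        · exact clB_mono B subset_union_left (h1 (Or.inl hy))
        · exact clB_mono B subset_union_right (hF1 hy.1)
        · exact clB_mono B subset_union_left (h1 (Or.inr hy))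
        · exact clB_mono B subset_union_right (hF1 hy.1)
      · rintro y ((hy | hy) | (hy | hy))
        · exact clB_mono B subset_union_left (h2 (Or.inl hy))
        · exact clB_mono B subset_union_right (hF2 hy.1)
        · exact clB_mono B subset_union_left (h2 (Or.inr hy))
        · exact clB_mono B subset_union_right (hF2 hy.1)
    have hle := hmax.2 hnew ⟨subset_union_left, subset_union_left⟩
    by_cases hxS : x ∈ S
    · exact hFA x hx (Or.inl (hle.1 (Or.inr ⟨hx, hxS⟩)))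
    · exact hFA x hx (Or.inr (hle.2 (Or.inr ⟨hx, hxS⟩)))

end Comb

/-! ## The example -/

section Example

variable (B : Set (Set ℕ))

/-- The embedding into the cube. -/
noncomputable def j (n : ℕ) : B → Bool := open Classical in fun b => decide (n ∈ b.1)

theorem j_eq_true {n : ℕ} {b : B} : j B n b = true ↔ n ∈ b.1 := by
  classical
  unfold j
  exact decide_eq_true_iff

variable {B}

theorem j_inj (h : Adm B) : Function.Injective (j B) := by
  intro m n hmn
  by_contra hne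
  obtain ⟨b, hb, hm, hn⟩ := h.sep m n hne
  have h1 : j B m ⟨b, hb⟩ = true := (j_eq_true B).2 hm
  rw [hmn] at h1
  exact hn ((j_eq_true B).1 h1)

theorem open_base (h : Adm B) {W : Set (B → Bool)} (hW : IsOpen W) {n : ℕ} (hn : j B n ∈ W) :
    ∃ b ∈ B, n ∈ b ∧ ∀ m ∈ b, j B m ∈ W := by
  classical
  obtain ⟨I, u, hu, hIu⟩ := isOpen_pi_iff.1 hW _ hn
  let c : B → Set ℕ := fun b => {m | j B m b = j B n b}
  have hc : ∀ b, c b ∈ B := by
    intro b
    by_cases hb : n ∈ b.1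
    · have : c b = b.1 := by
        ext m
        have h1 : j B n b = true := (j_eq_true B).2 hb
        change j B m b = j B n b ↔ m ∈ b.1
        rw [h1, j_eq_true]
      rw [this]
      exact b.2
    · have : c b = (b.1)ᶜ := by
        ext m
        have h1 : j B n b = false := by
          rw [← Bool.not_eq_true, j_eq_true]
          exact hb
        change j B m b = j B n b ↔ m ∈ (b.1)ᶜ
        rw [h1, ← Bool.not_eq_true, j_eq_true]
        rfl
      rw [this]
      exact h.compl _ b.2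
  have hI : ∀ s : Finset B, ∃ d ∈ B, n ∈ d ∧ ∀ m ∈ d, ∀ b ∈ s, j B m b = j B n b := by
    intro s
    induction s using Finset.induction_on with
    | empty => exact ⟨univ, h.univ, trivial, by simp⟩
    | insert a s ha ih =>
      obtain ⟨d, hd, hnd, hds⟩ := ih
      refine ⟨d ∩ c a, h.inter _ hd _ (hc a), ⟨hnd, rfl⟩, fun m hm b hb => ?_⟩
      rcases Finset.mem_insert.1 hb with rfl | hb
      · exact hm.2
      · exact hds m hm.1 b hb
  obtain ⟨d, hd, hnd, hds⟩ := hI I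
  refine ⟨d, hd, hnd, fun m hm => hIu fun b hb => ?_⟩
  rw [hds m hm b hb]
  exact (hu b hb).2

end Example

/-- There are a compact Hausdorff space `X` and a countable dense subspace `E` of `X` which is
`K₁*`-embedded but not `K₁`-embedded in `X`. -/
theorem result : ∃ (X : Type) (_ : TopologicalSpace X) (E : Set X),
    CompactSpace X ∧ T2Space X ∧ E.Countable ∧ Dense E ∧
      K1StarEmbedded E ∧ ¬ K1Embedded E := by
  classical
  obtain ⟨B, hB⟩ := exists_max
  have h := hB.prop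
  obtain ⟨U, ⟨n₀, hn₀⟩, hUo, hU⟩ := exists_hi hB
  let Y : Set (B → Bool) := closure (j B '' U)
  have hYc : IsCompact Y := isClosed_closure.isCompact
  have : CompactSpace Y := isCompact_iff_compactSpace.1 hYc
  let E : Set Y := {y | y.1 ∈ j B '' U}
  have hEc : E.Countable := by
    have h1 : (j B '' U).Countable := (to_countable U).image _
    exact h1.preimage Subtype.val_injective
  -- open sets
  have hopen : ∀ W : Set Y, IsOpen W → ∀ y ∈ W, ∃ n ∈ U, ∃ b ∈ B, n ∈ b ∧ b ⊆ U ∧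
      ∀ m ∈ b, ∃ hm : j B m ∈ Y, (⟨j B m, hm⟩ : Y) ∈ W := by
    rintro W hW y hy
    obtain ⟨W', hW', rfl⟩ := isOpen_induced_iff.1 hW
    obtain ⟨_, hz, ⟨n, hn, rfl⟩⟩ := mem_closure_iff.1 y.2 W' hW' hy
    obtain ⟨b, hb, hnb, hbW⟩ := open_base h hW' hz
    obtain ⟨b', hb', hnb', hbU⟩ := hUo n hn
    refine ⟨n, hn, b ∩ b', h.inter _ hb _ hb', ⟨hnb, hnb'⟩, inter_subset_right.trans hbU, ?_⟩
    intro m hm
    exact ⟨subset_closure ⟨m, hbU hm.2, rfl⟩, hbW m hm.1⟩
  have hDense : Dense E := by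
    intro y
    rw [mem_closure_iff]
    intro W hW hy
    obtain ⟨n, hn, b, _, hnb, _, hbW⟩ := hopen W hW y hy
    obtain ⟨hm, hmW⟩ := hbW n hnb
    exact ⟨_, hmW, ⟨n, hn, rfl⟩⟩
  have hinf : ∀ W : Set Y, IsOpen W → W.Nonempty → (W ∩ E).Infinite := by
    rintro W hW ⟨y, hy⟩
    obtain ⟨n, hn, b, hb, hnb, hbU, hbW⟩ := hopen W hW y hy
    have h1 : b.Infinite := h.inf b hb ⟨n, hnb⟩
    have h2 : (j B '' b).Infinite := h1.image (j_inj h).injOn
    intro hfin
    refine h2 ((hfin.image Subtype.val).subset ?_)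
    rintro _ ⟨m, hm, rfl⟩
    obtain ⟨hmY, hmW⟩ := hbW m hm
    exact ⟨⟨j B m, hmY⟩, ⟨hmW, ⟨m, hbU hm, rfl⟩⟩, rfl⟩
  have hHI : HI E := by
    rintro F hFE ⟨y, hy⟩ S ⟨h1, h2⟩
    obtain ⟨n, hn, hny⟩ := hFE hy
    -- pull back to `ℕ`
    let F' : Set ℕ := {m | ∃ hm : j B m ∈ Y, (⟨j B m, hm⟩ : Y) ∈ F}
    let S' : Set ℕ := {m | ∃ hm : j B m ∈ Y, (⟨j B m, hm⟩ : Y) ∈ S}
    have hF' : F' ⊆ U := by
      rintro m ⟨hm, hmF⟩
      obtain ⟨k, hk, hkm⟩ := hFE hmF
      exact (j_inj h hkm) ▸ hk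
    have hcl : ∀ T : Set Y, T ⊆ E → ∀ m (hm : j B m ∈ Y), (⟨j B m, hm⟩ : Y) ∈ closure T →
        m ∈ clB B {k | ∃ hk : j B k ∈ Y, (⟨j B k, hk⟩ : Y) ∈ T} := by
      intro T hT m hm hmT b hb hmb
      have hopenb : IsOpen {y : Y | y.1 ⟨b, hb⟩ = true} := by
        have h3 : Continuous fun y : Y => y.1 ⟨b, hb⟩ :=
          (continuous_apply (⟨b, hb⟩ : B)).comp continuous_subtype_val
        exact (isOpen_discrete {true}).preimage h3
      obtain ⟨z, hz, hzT⟩ := mem_closure_iff.1 hmT _ hopenb ((j_eq_true B).2 hmb)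
      obtain ⟨k, _, hkz⟩ := hT hzT
      have hk : j B k ∈ Y := hkz ▸ z.2
      refine ⟨k, ?_, hk, ?_⟩
      · have hz' : z.1 ⟨b, hb⟩ = true := hz
        rw [← hkz] at hz'
        exact (j_eq_true B).1 hz'
      · have : (⟨j B k, hk⟩ : Y) = z := Subtype.ext hkz
        rw [this]
        exact hzT
    refine hU F' hF' ⟨n, hny ▸ y.2, ?_⟩ S' ⟨?_, ?_⟩
    · have : (⟨j B n, hny ▸ y.2⟩ : Y) = y := Subtype.ext hny
      rw [this]
      exact hy
    · rintro m ⟨hm, hmF⟩
      have h3 := hcl _ (inter_subset_left.trans hFE) m hm (h1 hmF)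
      refine clB_mono B ?_ h3
      rintro k ⟨hk, hkF⟩
      exact ⟨⟨hk, hkF.1⟩, ⟨hk, hkF.2⟩⟩
    · rintro m ⟨hm, hmF⟩
      have h3 := hcl _ (sdiff_subset.trans hFE) m hm (h2 hmF)
      refine clB_mono B ?_ h3
      rintro k ⟨hk, hkF⟩
      exact ⟨⟨hk, hkF.1⟩, fun hkS => hkF.2 hkS.2⟩
  have hne : Nonempty Y := ⟨⟨j B n₀, subset_closure ⟨n₀, hn₀, rfl⟩⟩⟩
  exact ⟨Y, inferInstance, E, inferInstance, inferInstance, hEc, hDense,
    star_embedded hEc hHI, not_embedded hEc hinf⟩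

end Pool.Agent.Results.MP_b12a75_gt.StarNotK1
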